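import Pool.Agent.Q95.DW.Tree

set_option autoImplicit false

namespace Pool.Agent.Results.MP_668c10_co.DesWilf1243
open Finset Polynomial
open scoped Classical

/-- The number of descents of a permutation (positions `i` with `σ(i) > σ(i+1)`). -/
noncomputable def des {n : ℕ} (σ : Equiv.Perm (Fin n)) : ℕ :=
  (univ.filter fun i : Fin n => ∃ h : (i : ℕ) + 1 < n, σ ⟨(i : ℕ) + 1, h⟩ < σ i).card

/-- `σ` contains the shaded pattern `p̂`, `p` given by its one-line word: there are positions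
`i 0 < i 1 < i 2 < i 3` with `i 1 = i 0 + 1` whose entries are order-isomorphic to `p`. -/
def ContainsHat (p : Fin 4 → ℕ) {n : ℕ} (σ : Equiv.Perm (Fin n)) : Prop :=
  ∃ i : Fin 4 → Fin n, StrictMono i ∧ (i 1 : ℕ) = i 0 + 1 ∧
    ∀ a b : Fin 4, σ (i a) < σ (i b) ↔ p a < p b

/-- The descent polynomial `F_n^des({p̂}; q)` of the permutations of length `n` avoiding `p̂`. -/
noncomputable def F (p : Fin 4 → ℕ) (n : ℕ) : ℤ[X] :=
  ∑ σ ∈ univ.filter (fun σ : Equiv.Perm (Fin n) => ¬ ContainsHat p σ), X ^ des σ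

open Pool.Agent.Q95.DW

/-- the word of a permutation read through `e` -/
def word {n : ℕ} (e σ : Equiv.Perm (Fin n)) : Fin n → ℕ := fun i => (e (σ i) : ℕ)

lemma sum_words {n : ℕ} (e : Equiv.Perm (Fin n)) (P : Equiv.Perm (Fin n) → Prop)
    [DecidablePred P] (Q : (Fin n → ℕ) → Prop) (f : Equiv.Perm (Fin n) → ℤ[X]) (g : (Fin n → ℕ) → ℤ[X])
    (h1 : ∀ σ, P σ ↔ Q (word e σ)) (h2 : ∀ σ, f σ = g (word e σ)) :
    ∑ σ ∈ univ.filter P, f σ = ∑ w ∈ (PW n).filter Q, g w := by
  refine Finset.sum_bij (fun σ _ => word e σ) ?_ ?_ ?_ ?_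
  · intro σ hσ
    rw [Finset.mem_filter] at hσ ⊢
    refine ⟨(mem_PW _).2 ⟨fun i => (e (σ i)).2, fun i j hij => ?_⟩, (h1 σ).1 hσ.2⟩
    have : e (σ i) = e (σ j) := Fin.ext hij
    exact σ.injective (e.injective this)
  · intro σ _ τ _ h
    apply Equiv.ext
    intro i
    have := congrFun h i
    exact e.injective (Fin.ext this)
  · intro w hw
    rw [Finset.mem_filter, mem_PW] at hw
    have hinj : Function.Injective (fun i : Fin n => e.symm ⟨w i, hw.1.1 i⟩) := by
      intro i j hij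
      have := e.symm.injective hij
      exact hw.1.2 (congrArg Fin.val this)
    have hbij : Function.Bijective (fun i : Fin n => e.symm ⟨w i, hw.1.1 i⟩) :=
      (Fintype.bijective_iff_injective_and_card _).2 ⟨hinj, rfl⟩
    have hword : word e (Equiv.ofBijective _ hbij) = w := by
      funext i
      show ((e (e.symm ⟨w i, hw.1.1 i⟩) : Fin n) : ℕ) = w i
      rw [Equiv.apply_symm_apply]
    refine ⟨Equiv.ofBijective _ hbij, ?_, hword⟩
    rw [Finset.mem_filter]
    refine ⟨Finset.mem_univ _, ?_⟩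
    rw [h1, hword]
    exact hw.2
  · intro σ _
    exact h2 σ

lemma okA_iff {n : ℕ} (σ : Equiv.Perm (Fin n)) :
    ¬ ContainsHat ![1, 2, 4, 3] σ ↔ okA (word (Equiv.refl _) σ) := by
  unfold okA word
  constructor
  · intro h a b c d hab hbc hcd ⟨h1, h2, h3⟩
    apply h
    simp only [Equiv.refl_apply] at h1 h2 h3
    have hab' : a < b := Fin.lt_def.2 (by omega)
    refine ⟨![a, b, c, d], ?_, ?_, ?_⟩
    · rw [Fin.strictMono_iff_lt_succ]
      intro i
      fin_cases i
      · exact hab'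
      · exact hbc
      · exact hcd
    · show (b : ℕ) = a + 1
      omega
    · intro x y
      rw [Fin.lt_def]
      fin_cases x <;> fin_cases y <;> simp <;> omega
  · intro h ⟨i, hi, h1, h2⟩
    apply h (i 0) (i 1) (i 2) (i 3) (by omega) (hi (by decide)) (hi (by decide))
    simp only [Equiv.refl_apply]
    refine ⟨?_, ?_, ?_⟩
    · exact Fin.lt_def.1 ((h2 0 1).2 (by decide))
    · exact Fin.lt_def.1 ((h2 1 3).2 (by decide))
    · exact Fin.lt_def.1 ((h2 3 2).2 (by decide))

lemma okB_iff {n : ℕ} (σ : Equiv.Perm (Fin n)) :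
    ¬ ContainsHat ![3, 4, 1, 2] σ ↔ okB (word Fin.revPerm σ) := by
  unfold okB word
  have hr : ∀ x y : Fin n, ((Fin.revPerm x : Fin n) : ℕ) < (Fin.revPerm y : Fin n) ↔ (y : ℕ) < x := by
    intro x y
    rw [Fin.revPerm_apply, Fin.revPerm_apply, Fin.val_rev, Fin.val_rev]
    omega
  constructor
  · intro h a b c d hab hbc hcd ⟨h1, h2, h3⟩
    apply h
    rw [hr] at h1 h2 h3
    have hab' : a < b := Fin.lt_def.2 (by omega)
    refine ⟨![a, b, c, d], ?_, ?_, ?_⟩
    · rw [Fin.strictMono_iff_lt_succ]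
      intro i
      fin_cases i
      · exact hab'
      · exact hbc
      · exact hcd
    · show (b : ℕ) = a + 1
      omega
    · intro x y
      rw [Fin.lt_def]
      fin_cases x <;> fin_cases y <;> simp <;> omega
  · intro h ⟨i, hi, h1, h2⟩
    apply h (i 0) (i 1) (i 2) (i 3) (by omega) (hi (by decide)) (hi (by decide))
    rw [hr, hr, hr]
    refine ⟨?_, ?_, ?_⟩
    · exact Fin.lt_def.1 ((h2 0 1).2 (by decide))
    · exact Fin.lt_def.1 ((h2 3 0).2 (by decide))
    · exact Fin.lt_def.1 ((h2 2 3).2 (by decide))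

/-- Q1: `1243^` and `3412^` are des-Wilf equivalent. -/
theorem result (n : ℕ) (hn : 1 ≤ n) : F ![1, 2, 4, 3] n = F ![3, 4, 1, 2] n := by
  obtain ⟨m, rfl⟩ : ∃ m, n = m + 1 := ⟨n - 1, by omega⟩
  unfold F
  rw [sum_words (Equiv.refl _) (fun σ => ¬ ContainsHat ![1, 2, 4, 3] σ) okA (fun σ => X ^ des σ)
    (fun w => X ^ adj (fun a b => b < a) w) (fun σ => okA_iff σ) ?_,
    sum_words Fin.revPerm (fun σ => ¬ ContainsHat ![3, 4, 1, 2] σ) okB (fun σ => X ^ des σ)
    (fun w => X ^ adj (fun a b => a < b) w) (fun σ => okB_iff σ) ?_]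
  · exact words_eq (X : ℤ[X]) m (fun a b h => mul_left_cancel₀ X_ne_zero h)
  · intro σ
    congr 1
    unfold des adj word
    congr 1
    ext i
    simp only [Finset.mem_filter, Finset.mem_univ, true_and]
    constructor
    · rintro ⟨h, h2⟩
      refine ⟨h, ?_⟩
      have := Fin.lt_def.1 h2
      rw [Fin.revPerm_apply, Fin.revPerm_apply, Fin.val_rev, Fin.val_rev]
      omega
    · rintro ⟨h, h2⟩
      refine ⟨h, ?_⟩
      rw [Fin.revPerm_apply, Fin.revPerm_apply, Fin.val_rev, Fin.val_rev] at h2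
      rw [Fin.lt_def]
      omega
  · intro σ
    congr 1
    unfold des adj word
    congr 1
    ext i
    simp only [Finset.mem_filter, Finset.mem_univ, true_and]
    exact Iff.rfl

end Pool.Agent.Results.MP_668c10_co.DesWilf1243
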